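import Pool.Agent.helper55.RI.Spec

/-!
# Module ri:K1
-/

set_option autoImplicit false

namespace Pool.Agent.RI

open Pool.Agent.helper62 Prog Function Pool.Agent.helper81.PL

theorem K1_pre : ∀ (a b : ℕ) (x y : W), pre a x = pre b y → a = b ∧ x = y := by
  intro a
  induction a with
  | zero =>
    intro b x y h
    cases b with
    | zero => exact ⟨rfl, by simpa [pre] using h⟩
    | succ b => simp [pre, List.replicate_succ] at h
  | succ a ih =>
    intro b x y h
    cases b with
    | zero => simp [pre, List.replicate_succ] at h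
    | succ b =>
      have h' : pre a x = pre b y := by
        simpa [pre, List.replicate_succ] using h
      obtain ⟨h1, h2⟩ := ih b x y h'
      exact ⟨by omega, h2⟩

theorem K1_halts : REPred (fun p : ℕ × W => halts p.1 p.2) := by
  have h1 : Computable (fun p : ℕ × W => Denumerable.ofNat Nat.Partrec.Code p.1) :=
    (Computable.ofNat Nat.Partrec.Code).comp Computable.fst
  have h2 : Computable (fun p : ℕ × W => enc p.2) :=
    Computable.encode.comp Computable.snd
  exact (Nat.Partrec.Code.eval_part.comp h1 h2).dom_re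

theorem K1 (hR2 : R2_stmt) (hR3 : R3_stmt) (hR5 : R5_stmt) : K1_stmt := by
  constructor
  · have hpre := hR5.1
    have e1 : ComputablePred (fun x : W × (ℕ × W) => x.1 = pre x.2.1 x.2.2) :=
      hR3.2.2.2.1 (W × (ℕ × W)) W (fun x => x.1) (fun x => pre x.2.1 x.2.2) Computable.fst
        (hpre.comp Computable.snd)
    have e2 : REPred (fun x : W × (ℕ × W) => halts x.2.1 x.2.2) :=
      hR2.2.1 (W × (ℕ × W)) (ℕ × W) (fun x => x.2) (fun p => halts p.1 p.2) Computable.snd
        K1_halts
    have e3 := (hR2.1 (W × (ℕ × W)) _ _ e1.to_re e2).1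
    have e4 := hR2.2.2.1 W (ℕ × W) (fun w p => w = pre p.1 p.2 ∧ halts p.1 p.2) e3
    refine e4.of_eq ?_
    intro w
    constructor
    · rintro ⟨⟨a, x⟩, h1, h2⟩
      exact ⟨a, x, h1, h2⟩
    · rintro ⟨a, x, h1, h2⟩
      exact ⟨(a, x), h1, h2⟩
  · intro Q hQ
    have hdw : Computable dw := hR5.2.2.2.2.1
    have h1 : Computable (fun p : Nat.Partrec.Code × ℕ => (Encodable.encode p.1, dw p.2)) :=
      (Computable.encode.comp Computable.fst).pair (hdw.comp Computable.snd)
    have h2 := hR2.2.1 (Nat.Partrec.Code × ℕ) (ℕ × W) _ (fun p => Q p.1 p.2) h1 hQ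
    have h3 : Partrec₂ (fun (c : Nat.Partrec.Code) (n : ℕ) =>
        (Part.assert (Q (Encodable.encode c) (dw n)) fun _ => Part.some ()).map (fun _ => (0 : ℕ))) :=
      Partrec.map h2 (Computable.const 0).to₂
    obtain ⟨c, hc⟩ := Nat.Partrec.Code.fixed_point₂ h3
    refine ⟨Encodable.encode c, fun y => ?_⟩
    have hy : dw (enc y) = y := hR5.2.2.2.2.2.1 y
    have k1 : halts (Encodable.encode c) y ↔ Q (Encodable.encode c) y := by
      unfold halts
      rw [Denumerable.ofNat_encode, hc]
      show (Part.assert (Q (Encodable.encode c) (dw (enc y))) fun _ => Part.some ()).Dom ↔ _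
      rw [hy]
      exact ⟨fun h => h.1, fun h => ⟨h, trivial⟩⟩
    rw [← k1]
    constructor
    · rintro ⟨a, x, h4, h5⟩
      obtain ⟨h6, h7⟩ := K1_pre _ _ _ _ h4
      rw [h6, h7]
      exact h5
    · intro h
      exact ⟨_, _, rfl, h⟩

end Pool.Agent.RI
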