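import Pool.Agent.helper55.RI.SpecG

/-!
# Project rg (MP_2bd605_lc), module G9: images
-/

set_option autoImplicit false

namespace Pool.Agent.RI

open Pool.Agent.helper62 Prog Function Pool.Agent.helper81.PL

theorem G9_pow : Primrec (fun y : W => 2 ^ y.length) := by
  have h : Primrec₂ ((· ^ ·) : ℕ → ℕ → ℕ) := Primrec₂.unpaired'.1 Nat.Primrec.pow
  exact h.comp (Primrec.const 2) Primrec.list_length

theorem G9 (hG2 : G2_stmt) : G9_stmt := by
  intro 𝒞 C f hG hC hf hinj hlen
  have hPT : PT f := uX5 f hf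
  obtain ⟨-, hPr, -, -, -, -, hw, hwds, -, -, -, hlist, -⟩ := hG2
  have hfp : Primrec f := hPr f hPT
  refine ⟨?_, ?_⟩
  · let F : W → List (List W) := fun y =>
      ((wds (2 ^ y.length)).filter (fun x => decide (f x = y))).map (fun x => [x])
    have hF : Primrec F := by
      have h1 : Primrec (fun y : W => wds (2 ^ y.length)) := hwds.comp G9_pow
      have h2 : Primrec₂ (fun (y x : W) => decide (f x = y)) := by
        have : PrimrecRel (fun (y x : W) => f x = y) :=
          (Primrec.eq (α := W)).comp₂ (hfp.comp Primrec.snd).to₂ Primrec.fst.to₂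
        exact this.decide
      have h3 := (hlist W (fun y => wds (2 ^ y.length)) (fun y x => decide (f x = y)) h1 h2).2.2.2
      exact Primrec.list_map h3 ((Primrec.list_cons.comp Primrec.snd (Primrec.const [])).to₂)
    have h := hG.tt C hC.1 F hF.to_comp
    have he : f '' C = {y : W | ∃ ℓ ∈ F y, ∀ a ∈ ℓ, a ∈ C} := by
      ext y
      constructor
      · rintro ⟨x, hx, rfl⟩
        refine ⟨[x], ?_, ?_⟩
        · refine List.mem_map.2 ⟨x, List.mem_filter.2 ⟨(hw _ _).2 (hlen x), ?_⟩, rfl⟩
          simp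
        · intro a ha
          rw [List.mem_singleton.1 ha]
          exact hx
      · rintro ⟨ℓ, hℓ, hC'⟩
        obtain ⟨x, hx, rfl⟩ := List.mem_map.1 hℓ
        have h1 := (List.mem_filter.1 hx).2
        exact ⟨x, hC' x (List.mem_singleton.2 rfl), of_decide_eq_true h1⟩
    rw [he]
    exact h
  · intro A hA
    obtain ⟨g, hg, hgA⟩ := hC.2 A hA
    have hgP : PT g := uX5 g hg
    refine ⟨fun x => f (g x), X2 _ (X1 _ (hPT.comp hgP)), fun x => ?_⟩
    rw [hgA x]
    constructor
    · intro h
      exact ⟨g x, h, rfl⟩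
    · rintro ⟨z, hz, hzx⟩
      rw [← hinj hzx]
      exact hz

end Pool.Agent.RI
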